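import Pool.Agent.H36.StanleyMain

set_option autoImplicit false

open Pool.Agent.H36
open scoped ContinuousMap

/-- For every integer matrix `Φ` and every `β` in the coset, the complex `Δ_β` is homotopy
equivalent to the `(s - d)`-fold suspension of `Γ_β`. -/
theorem Pool.Agent.Results.MP_a2a0e0_co.StanleySuspension.result
    (r n : ℕ) (Φ : Matrix (Fin r) (Fin n) ℤ) (α : Fin r → ℤ)
    (hC : realCone Φ ≠ {0})
    (β : Fin n → ℤ) (hβ : β ∈ solCoset Φ α)
    (h : (Fin n → ℝ) →ₗ[ℝ] ℝ) (c : ℝ) (P : Set (Fin n → ℝ))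
    (hP : P = realCone Φ ∩ {x | h x = c})
    (hmeet : (intrinsicInterior ℝ (realCone Φ) ∩ {x | h x = c}).Nonempty)
    (hbdd : Bornology.IsBounded P)
    (x₀ : Fin n → ℝ) (hx₀ : x₀ ∈ intrinsicInterior ℝ P) :
    (CF Φ).Finite ∧
    Module.finrank ℝ (vectorSpan ℝ P) + 1 ≤ (CF Φ).ncard ∧
    Nonempty (Delta Φ β ≃ₕ
      iterSusp ((CF Φ).ncard - (Module.finrank ℝ (vectorSpan ℝ P) + 1))
        (TopCat.of (Gamma P x₀ β))) := by
  subst hP
  exact stanley_main β hβ hC h c hmeet hbdd x₀ hx₀
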